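import Mathlib

/-!
# An anti-concentration lemma for tuples with two marked letters
-/

set_option autoImplicit false

namespace Pool.Agent.W639.RB

open Finset

theorem centralBinom_sq (j : ℕ) : (2 * j + 1) * (Nat.centralBinom j) ^ 2 ≤ 16 ^ j := by
  induction j with
  | zero => simp
  | succ j ih =>
    have h := Nat.succ_mul_centralBinom_succ j
    have h1 : (j + 1) ^ 2 * ((2 * (j + 1) + 1) * (Nat.centralBinom (j + 1)) ^ 2) ≤
        (j + 1) ^ 2 * 16 ^ (j + 1) := by
      calc (j + 1) ^ 2 * ((2 * (j + 1) + 1) * (Nat.centralBinom (j + 1)) ^ 2)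
          = (2 * j + 3) * ((j + 1) * Nat.centralBinom (j + 1)) ^ 2 := by ring
        _ = (2 * j + 3) * (2 * (2 * j + 1) * Nat.centralBinom j) ^ 2 := by rw [h]
        _ = (4 * ((2 * j + 3) * (2 * j + 1))) * ((2 * j + 1) * (Nat.centralBinom j) ^ 2) := by ring
        _ ≤ (4 * (4 * (j + 1) ^ 2)) * 16 ^ j := by
            apply Nat.mul_le_mul _ ih
            nlinarith
        _ = (j + 1) ^ 2 * 16 ^ (j + 1) := by ring
    exact Nat.le_of_mul_le_mul_left h1 (by positivity)

theorem choose_sq (k a : ℕ) : (k + 1) * (k.choose a) ^ 2 ≤ 4 ^ k := by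
  have hmid : k.choose a ≤ k.choose (k / 2) := Nat.choose_le_middle a k
  have h1 : (k + 1) * (k.choose a) ^ 2 ≤ (k + 1) * (k.choose (k / 2)) ^ 2 :=
    Nat.mul_le_mul_left _ (Nat.pow_le_pow_left hmid 2)
  refine h1.trans ?_
  rcases Nat.even_or_odd' k with ⟨j, rfl | rfl⟩
  · have h2 := centralBinom_sq j
    rw [Nat.mul_div_cancel_left _ (by norm_num : 0 < 2)]
    rw [Nat.centralBinom_eq_two_mul_choose] at h2
    have : (4 : ℕ) ^ (2 * j) = 16 ^ j := by rw [pow_mul]; norm_num
    rw [this]
    exact h2
  · have h2 := centralBinom_sq (j + 1)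
    have h3 : (2 * j + 1) / 2 = j := by omega
    rw [h3]
    have h4 : Nat.centralBinom (j + 1) = 2 * (2 * j + 1).choose j := by
      rw [Nat.centralBinom_eq_two_mul_choose, show 2 * (j + 1) = (2 * j + 1) + 1 by ring,
        Nat.choose_succ_succ', Nat.choose_symm_half]
      ring
    rw [h4] at h2
    have h5 : (4 : ℕ) * 4 ^ (2 * j + 1) = 16 ^ (j + 1) := by
      rw [pow_succ, pow_mul, pow_succ]; norm_num; ring
    have h6 : 4 * ((2 * j + 1 + 1) * ((2 * j + 1).choose j) ^ 2) ≤ 4 * 4 ^ (2 * j + 1) := by
      rw [h5]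
      refine le_trans ?_ h2
      nlinarith [sq_nonneg ((2 * j + 1).choose j)]
    exact Nat.le_of_mul_le_mul_left h6 (by norm_num)

theorem choose_le_sqrt (k a : ℕ) : ((k.choose a : ℕ) : ℝ) ≤ 2 ^ k / Real.sqrt (k + 1) := by
  have h := choose_sq k a
  have h' : ((k : ℝ) + 1) * ((k.choose a : ℕ) : ℝ) ^ 2 ≤ 4 ^ k := by exact_mod_cast h
  have hk : (0 : ℝ) < k + 1 := by positivity
  rw [le_div_iff₀ (Real.sqrt_pos.2 hk)]
  have h2 : (((k.choose a : ℕ) : ℝ) * Real.sqrt (k + 1)) ^ 2 ≤ (2 ^ k) ^ 2 := by
    rw [mul_pow, Real.sq_sqrt hk.le, ← pow_mul, mul_comm k 2, pow_mul]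
    norm_num
    linarith
  exact (sq_le_sq₀ (by positivity) (by positivity)).1 h2

section main

variable {β : Type*} [Fintype β] [DecidableEq β] {q : ℕ} (u v : β)

/-- the places with a marked letter -/
def stars (b : Fin q → β) : Finset (Fin q) := univ.filter (fun j => b j = u ∨ b j = v)

/-- the number of letters `u` -/
def cnt (b : Fin q → β) : ℕ := (univ.filter (fun j => b j = u)).card

/-- the tuple with the marked letters deleted -/
def patt (b : Fin q → β) : Fin q → Option β := fun j => if b j = u ∨ b j = v then none else some (b j)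

omit [Fintype β] in
theorem stars_eq (b : Fin q → β) : stars u v b = univ.filter (fun j => patt u v b j = none) := by
  unfold stars patt
  apply Finset.filter_congr
  intro j _
  by_cases h : b j = u ∨ b j = v <;> simp [h]

variable (huv : u ≠ v)
include huv

theorem fiber_lower (b0 : Fin q → β) :
    2 ^ (stars u v b0).card ≤ (univ.filter (fun b : Fin q → β => patt u v b = patt u v b0)).card := by
  classical
  rw [← Finset.card_powerset]
  apply Finset.card_le_card_of_injOn
    (fun U : Finset (Fin q) => fun j => if j ∈ stars u v b0 then (if j ∈ U then u else v) else b0 j)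
  · intro U hU
    have hU' : U ⊆ stars u v b0 := Finset.mem_powerset.1 (Finset.mem_coe.1 hU)
    simp only [Finset.coe_filter, Finset.mem_univ, true_and, Set.mem_ofPred_eq]
    funext j
    unfold patt
    by_cases hj : j ∈ stars u v b0
    · have h0 : b0 j = u ∨ b0 j = v := (Finset.mem_filter.1 hj).2
      by_cases hjU : j ∈ U <;> simp [hj, hjU, h0]
    · simp only [hj, if_false]
  · intro U hU U' hU' h
    have hU1 : U ⊆ stars u v b0 := Finset.mem_powerset.1 (Finset.mem_coe.1 hU)
    have hU2 : U' ⊆ stars u v b0 := Finset.mem_powerset.1 (Finset.mem_coe.1 hU')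
    ext j
    have hj := congrFun h j
    simp only at hj
    by_cases hs : j ∈ stars u v b0
    · simp only [hs, if_true] at hj
      by_cases h1 : j ∈ U <;> by_cases h2 : j ∈ U'
      · simp [h1, h2]
      · simp [h1, h2, huv] at hj
      · simp only [h1, h2, if_false, if_true] at hj
        exact absurd hj.symm huv
      · simp [h1, h2]
    · exact ⟨fun h => absurd (hU1 h) hs, fun h => absurd (hU2 h) hs⟩

theorem fiber_upper (b0 : Fin q → β) (a : ℕ) :
    (univ.filter (fun b : Fin q → β => patt u v b = patt u v b0 ∧ cnt u b = a)).card ≤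
      ((stars u v b0).card).choose a := by
  classical
  rw [← Finset.card_powersetCard]
  apply Finset.card_le_card_of_injOn (fun b : Fin q → β => univ.filter (fun j => b j = u))
  · intro b hb
    simp only [Finset.coe_filter, Finset.mem_univ, true_and, Set.mem_ofPred_eq] at hb
    rw [Finset.mem_coe, Finset.mem_powersetCard]
    refine ⟨?_, hb.2⟩
    rw [stars_eq, ← hb.1, ← stars_eq]
    intro j hj
    rw [Finset.mem_filter] at hj
    exact Finset.mem_filter.2 ⟨hj.1, Or.inl hj.2⟩
  · intro b hb b' hb' h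
    simp only [Finset.coe_filter, Finset.mem_univ, true_and, Set.mem_ofPred_eq] at hb hb'
    funext j
    have hj : (b j = u) ↔ (b' j = u) := by
      have := congrArg (fun s => j ∈ s) h
      simpa using this
    have hp := congrFun (hb.1.trans hb'.1.symm) j
    unfold patt at hp
    by_cases h1 : b j = u
    · rw [h1, hj.1 h1]
    · have h2 : ¬ b' j = u := fun h => h1 (hj.2 h)
      by_cases h3 : b j = v
      · by_cases h4 : b' j = v
        · rw [h3, h4]
        · simp [h1, h2, h3, h4] at hp
      · by_cases h4 : b' j = v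
        · simp [h1, h2, h3, h4] at hp
        · simpa [h1, h2, h3, h4] using hp

theorem card_le_sum (S : Finset (Fin q → β)) (h : ℕ)
    (hS : ∀ b0 : Fin q → β, ((S.filter (fun b => patt u v b = patt u v b0)).image (cnt u)).card ≤ h) :
    (S.card : ℝ) ≤ h * ∑ b : Fin q → β, 1 / Real.sqrt ((stars u v b).card + 1) := by
  classical
  have h1 : ∀ t ∈ (univ : Finset (Fin q → β)).image (patt u v), 
      ((S.filter (fun b => patt u v b = t)).card : ℝ) ≤ 
      h * ∑ b ∈ univ.filter (fun b : Fin q → β => patt u v b = t), 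
        1 / Real.sqrt ((stars u v b).card + 1) := by
    intro t ht
    obtain ⟨b0, _, rfl⟩ := Finset.mem_image.1 ht
    set k := (stars u v b0).card with hk
    have h2 : ∀ b ∈ univ.filter (fun b : Fin q → β => patt u v b = patt u v b0),
        1 / Real.sqrt (((stars u v b).card : ℝ) + 1) = 1 / Real.sqrt ((k : ℝ) + 1) := by
      intro b hb
      have hb' := (Finset.mem_filter.1 hb).2
      rw [stars_eq, hb', ← stars_eq]
    rw [Finset.sum_congr rfl h2, Finset.sum_const, nsmul_eq_mul]
    have h3 : (S.filter (fun b => patt u v b = patt u v b0)).card ≤ 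
        h * (univ.filter (fun b : Fin q → β => patt u v b = patt u v b0)).card ∨ True := Or.inr trivial
    have h4 : ((S.filter (fun b => patt u v b = patt u v b0)).card : ℝ) ≤ 
        ∑ a ∈ (S.filter (fun b => patt u v b = patt u v b0)).image (cnt u), 
          (2 ^ k / Real.sqrt ((k : ℝ) + 1)) := by
      rw [Finset.card_eq_sum_card_image (cnt u)]
      push_cast
      apply Finset.sum_le_sum
      intro a _
      refine le_trans ?_ (choose_le_sqrt k a)
      have hfu := fiber_upper u v huv b0 a
      have h5 : (Finset.filter (fun x => cnt u x = a) (S.filter (fun b => patt u v b = patt u v b0))) ⊆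
          (univ.filter (fun b : Fin q → β => patt u v b = patt u v b0 ∧ cnt u b = a)) := by
        intro b hb
        simp only [Finset.mem_filter, Finset.mem_univ, true_and] at hb ⊢
        exact ⟨hb.1.2, hb.2⟩
      exact_mod_cast (Finset.card_le_card h5).trans hfu
    rw [Finset.sum_const, nsmul_eq_mul] at h4
    refine h4.trans ?_
    have h6 := hS b0
    have h7 := fiber_lower u v huv b0
    have h8 : (0:ℝ) < Real.sqrt ((k : ℝ) + 1) := Real.sqrt_pos.2 (by positivity)
    have h7' : (2 : ℝ) ^ k ≤ (univ.filter (fun b : Fin q → β => patt u v b = patt u v b0)).card := by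
      exact_mod_cast h7
    calc (((S.filter (fun b => patt u v b = patt u v b0)).image (cnt u)).card : ℝ) * 
          (2 ^ k / Real.sqrt ((k : ℝ) + 1)) ≤ h * (2 ^ k / Real.sqrt ((k : ℝ) + 1)) := by
          apply mul_le_mul_of_nonneg_right _ (by positivity)
          exact_mod_cast h6
      _ ≤ h * ((univ.filter (fun b : Fin q → β => patt u v b = patt u v b0)).card * 
            (1 / Real.sqrt ((k : ℝ) + 1))) := by
          apply mul_le_mul_of_nonneg_left _ (by positivity)
          rw [mul_one_div]
          exact div_le_div_of_nonneg_right h7' h8.le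
  have h9 : (S.card : ℝ) = ∑ t ∈ (univ : Finset (Fin q → β)).image (patt u v), 
      ((S.filter (fun b => patt u v b = t)).card : ℝ) := by
    rw [← Nat.cast_sum]
    congr 1
    apply Finset.card_eq_sum_card_fiberwise
    intro b _
    exact Finset.mem_coe.2 (Finset.mem_image_of_mem _ (Finset.mem_univ b))
  rw [h9]
  refine (Finset.sum_le_sum h1).trans (le_of_eq ?_)
  rw [← Finset.mul_sum]
  congr 1
  exact Finset.sum_fiberwise_of_maps_to (fun b _ => Finset.mem_image_of_mem _ (Finset.mem_univ b)) _

theorem sum_pow_stars (x : ℝ) : ∑ b : Fin q → β, x ^ (stars u v b).card = 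
    ((Fintype.card β : ℝ) - 2 + 2 * x) ^ q := by
  classical
  have h1 : ∀ b : Fin q → β, x ^ (stars u v b).card = ∏ j, (if b j = u ∨ b j = v then x else 1) := by
    intro b
    rw [Finset.prod_ite, Finset.prod_const, Finset.prod_const_one, mul_one]
    rfl
  simp only [h1]
  have h2 := (Finset.prod_univ_sum (fun _ : Fin q => (univ : Finset β)) 
    (fun (_ : Fin q) (c : β) => if c = u ∨ c = v then x else (1:ℝ)))
  rw [Fintype.piFinset_univ] at h2
  rw [← h2, Finset.prod_const, Finset.card_univ, Fintype.card_fin]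
  congr 1
  rw [Finset.sum_ite, Finset.sum_const, Finset.sum_const]
  have h3 : (univ.filter (fun c : β => c = u ∨ c = v)) = {u, v} := by
    ext c; simp
  have h4 : (univ.filter (fun c : β => c = u ∨ c = v)).card = 2 := by
    rw [h3, Finset.card_pair huv]
  have h5 : (univ.filter (fun c : β => ¬ (c = u ∨ c = v))).card = Fintype.card β - 2 := by
    rw [Finset.filter_not, Finset.card_sdiff_of_subset (Finset.filter_subset _ _), h4, Finset.card_univ]
  have h6 : 2 ≤ Fintype.card β := by
    rw [← h4]; exact Finset.card_le_univ _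
  rw [h4, h5, nsmul_eq_mul, nsmul_eq_mul, Nat.cast_sub h6]
  push_cast
  ring

theorem sum_inv_stars : ∑ b : Fin q → β, 1 / (((stars u v b).card : ℝ) + 1) ≤ 
    (Fintype.card β : ℝ) ^ (q + 1) / (2 * (q + 1)) := by
  classical
  have h1 : ∀ k : ℕ, (1 : ℝ) / ((k : ℝ) + 1) = ∫ x in (0:ℝ)..1, x ^ k := by
    intro k
    rw [integral_pow]
    simp
  simp only [h1]
  rw [← intervalIntegral.integral_finsetSum (fun b _ => (by fun_prop : Continuous fun x : ℝ => x ^ (stars u v b).card).intervalIntegrable _ _)]
  have h2 : ∀ x : ℝ, ∑ b : Fin q → β, x ^ (stars u v b).card = 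
    ((Fintype.card β : ℝ) - 2 + 2 * x) ^ q := sum_pow_stars u v huv
  simp only [h2]
  have h6 : 2 ≤ Fintype.card β := by
    have : ({u, v} : Finset β).card = 2 := Finset.card_pair huv
    rw [← this]; exact Finset.card_le_univ _
  have h6' : (2:ℝ) ≤ Fintype.card β := by exact_mod_cast h6
  have h7 : ∫ x in (0:ℝ)..1, ((Fintype.card β : ℝ) - 2 + 2 * x) ^ q = 
      ((Fintype.card β : ℝ) - 2 + 2 * 1) ^ (q+1) / (2 * (q + 1)) - 
      ((Fintype.card β : ℝ) - 2 + 2 * 0) ^ (q+1) / (2 * (q + 1)) := by
    apply intervalIntegral.integral_eq_sub_of_hasDerivAt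
      (f := fun x => ((Fintype.card β : ℝ) - 2 + 2 * x) ^ (q+1) / (2 * (q + 1)))
    · intro x _
      have h8 : HasDerivAt (fun x : ℝ => (Fintype.card β : ℝ) - 2 + 2 * x) 2 x := by
        simpa using ((hasDerivAt_id x).const_mul (2:ℝ)).const_add ((Fintype.card β : ℝ) - 2)
      have h9 := (h8.fun_pow (q+1)).div_const (2 * ((q:ℝ) + 1))
      refine h9.congr_deriv ?_
      have h12 : ((q:ℝ) + 1) ≠ 0 := by positivity
      rw [Nat.add_sub_cancel]
      push_cast
      field_simp
    · exact (by fun_prop : Continuous fun x : ℝ => ((Fintype.card β : ℝ) - 2 + 2 * x) ^ q).intervalIntegrable _ _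
  rw [h7]
  have h10 : ((Fintype.card β : ℝ) - 2 + 2 * 1) = Fintype.card β := by ring
  rw [h10]
  have h11 : 0 ≤ ((Fintype.card β : ℝ) - 2 + 2 * 0) ^ (q+1) / (2 * ((q:ℝ) + 1)) := by
    apply div_nonneg _ (by positivity)
    apply pow_nonneg
    linarith
  linarith

/-- the anti-concentration lemma -/
theorem anti (S : Finset (Fin q → β)) (h : ℕ)
    (hS : ∀ b0 : Fin q → β, ((S.filter (fun b => patt u v b = patt u v b0)).image (cnt u)).card ≤ h) :
    (S.card : ℝ) ≤ h * ((Fintype.card β : ℝ) ^ q * Real.sqrt (Fintype.card β / (2 * (q + 1)))) := by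
  classical
  refine (card_le_sum u v huv S h hS).trans ?_
  apply mul_le_mul_of_nonneg_left _ (by positivity)
  have h1 : (∑ b : Fin q → β, 1 / Real.sqrt ((stars u v b).card + 1)) ^ 2 ≤ 
      ((Fintype.card β : ℝ) ^ q * Real.sqrt (Fintype.card β / (2 * (q + 1)))) ^ 2 := by
    have h2 := Finset.sum_mul_sq_le_sq_mul_sq (univ : Finset (Fin q → β)) (fun _ => (1:ℝ))
      (fun b => 1 / Real.sqrt (((stars u v b).card : ℝ) + 1))
    simp only [one_mul, one_pow, Finset.sum_const, Finset.card_univ, nsmul_eq_mul, mul_one,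
      Fintype.card_pi, Finset.prod_const, Fintype.card_fin] at h2
    refine h2.trans ?_
    have h3 : ∀ b : Fin q → β, (1 / Real.sqrt (((stars u v b).card : ℝ) + 1)) ^ 2 = 
        1 / (((stars u v b).card : ℝ) + 1) := by
      intro b
      rw [div_pow, one_pow, Real.sq_sqrt (by positivity)]
    simp only [h3]
    have h4 := sum_inv_stars (q := q) u v huv
    rw [mul_pow, Real.sq_sqrt (by positivity)]
    push_cast
    calc (Fintype.card β : ℝ) ^ q * ∑ b : Fin q → β, 1 / (((stars u v b).card : ℝ) + 1) 
        ≤ (Fintype.card β : ℝ) ^ q * ((Fintype.card β : ℝ) ^ (q + 1) / (2 * (q + 1))) :=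
          mul_le_mul_of_nonneg_left h4 (by positivity)
      _ = _ := by rw [pow_succ]; ring
  exact (sq_le_sq₀ (Finset.sum_nonneg (fun b _ => by positivity)) (by positivity)).1 h1

end main

end Pool.Agent.W639.RB
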