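import Pool.Agent.H891R2.Jones.Diagram

/-!
# Braid words drawn in a box of a link diagram

`Outer m` (starting library `Pool.Agent.H891R2.Jones.Diagram`) is the part of an oriented link diagram
outside a box through which `m` strands run, `Outer.push` draws one crossing at the lower side of the
open part of the box and `Outer.close` fills the rest of the box with vertical strands.
-/

set_option autoImplicit false

namespace Pool.Agent.W639.RB

open Pool.Agent.H891R2.Jones

/-- the letters `σ_i^{±1}` of the braid group on `m` strands, `0 ≤ i < m - 1`: `(true, i)` is `σ_i`
and `(false, i)` is `σ_i⁻¹` -/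
abbrev Letter (m : ℕ) : Type := Bool × Fin (m - 1)

/-- draw a word in the box -/
def draw {m : ℕ} (O : Outer m) (w : List (Bool × ℕ)) : Outer m :=
  w.foldl (fun O x => O.push x.1 x.2) O

/-- the word `w` of length `n` as a list -/
def toL {m n : ℕ} (w : Fin n → Letter m) : List (Bool × ℕ) :=
  List.ofFn (fun i => ((w i).1, ((w i).2 : ℕ)))

/-- the link diagram obtained by drawing the braid word `w` in the box of `O` -/
def diagram {m n : ℕ} (O : Outer m) (w : Fin n → Letter m) : Diagram (draw O (toL w)).P :=
  (draw O (toL w)).close

/-- the outside of the box for the usual closure of braids on `m` strands: no crossings, and the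
upper end of each strand is joined to its lower end -/
def braidClosure (m : ℕ) : Outer m where
  P := Fin m
  arcs := []
  crossings := []
  lower := id
  upper := id
  up := fun _ => true

/-- the permutation of a braid word: the product of the transpositions `(i, i+1)` of its letters -/
def perm {m n : ℕ} (w : Fin n → Letter m) : Equiv.Perm (Fin m) :=
  (List.ofFn (fun i => Equiv.swap (⟨(w i).2, by omega⟩ : Fin m) ⟨(w i).2 + 1, by omega⟩)).prod

end Pool.Agent.W639.RB
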