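import Pool.Agent.W639.RB.Main

set_option autoImplicit false

namespace Pool.Agent.W639.RB

open Finset LaurentPolynomial Pool.Agent.H891R2.Jones

variable {m : ℕ}

/-- the transposition of a letter -/
def tr (x : Letter m) : Equiv.Perm (Fin m) := 
  Equiv.swap (⟨x.2, by omega⟩ : Fin m) ⟨x.2 + 1, by omega⟩

theorem perm_eq {n : ℕ} (w : Fin n → Letter m) : perm w = ((List.ofFn w).map tr).prod := by
  unfold perm
  rw [List.map_ofFn]
  rfl

theorem perm_append {n k : ℕ} (w : Fin n → Letter m) (s : Fin k → Letter m) : 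
    perm (Fin.append w s) = perm w * perm s := by
  rw [perm_eq, perm_eq, perm_eq, List.ofFn_fin_append, List.map_append, List.prod_append]

theorem sign_tr (x : Letter m) : Equiv.Perm.sign (tr x) = -1 := by
  unfold tr
  apply Equiv.Perm.sign_swap
  intro h
  simp only [Fin.mk.injEq] at h
  omega

theorem sign_perm {n : ℕ} (w : Fin n → Letter m) : Equiv.Perm.sign (perm w) = (-1) ^ n := by
  rw [perm_eq, map_list_prod, List.map_map]
  have : (Equiv.Perm.sign ∘ tr : Letter m → ℤˣ) = fun _ => -1 := by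
    funext x; exact sign_tr x
  rw [this, List.map_const', List.prod_replicate, List.length_ofFn]

theorem reach (hm : 2 ≤ m) (π : Equiv.Perm (Fin m)) : ∃ (l : ℕ) (w : Fin l → Letter m), perm w = π := by
  obtain ⟨k, rfl⟩ : ∃ k, m = k + 1 := ⟨m - 1, by omega⟩
  have h : π ∈ Submonoid.closure (Set.range fun i : Fin k => Equiv.swap i.castSucc i.succ) := by
    rw [Equiv.Perm.mclosure_swap_castSucc_succ]; trivial
  induction h using Submonoid.closure_induction with
  | mem x hx =>
    obtain ⟨i, rfl⟩ := hx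
    refine ⟨1, fun _ => (true, ⟨i, by simp⟩), ?_⟩
    rw [perm_eq]
    simp only [List.ofFn_succ, List.ofFn_zero, List.map_cons, List.map_nil, List.prod_cons,
      List.prod_nil, mul_one]
    rfl
  | one => exact ⟨0, Fin.elim0, rfl⟩
  | mul x y _ _ hx hy =>
    obtain ⟨l, w, rfl⟩ := hx
    obtain ⟨l', w', rfl⟩ := hy
    exact ⟨l + l', Fin.append w w', perm_append w w'⟩

theorem pad (hm : 2 ≤ m) {π : Equiv.Perm (Fin m)} {l : ℕ} (h : ∃ w : Fin l → Letter m, perm w = π) (k : ℕ) : 
    ∃ w : Fin (l + 2 * k) → Letter m, perm w = π := by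
  induction k with
  | zero => exact h
  | succ k ih =>
    obtain ⟨w, hw⟩ := ih
    show ∃ w : Fin (l + 2 * k + 2) → Letter m, perm w = π
    refine ⟨Fin.append w (fun _ : Fin 2 => (true, ⟨0, by omega⟩)), ?_⟩
    rw [perm_append, hw]
    have : perm (fun _ : Fin 2 => ((true, ⟨0, by omega⟩) : Letter m)) = 1 := by
      rw [perm_eq]
      simp only [List.ofFn_succ, List.ofFn_zero, List.map_cons, List.map_nil, List.prod_cons,
        List.prod_nil, mul_one]
      exact Equiv.swap_mul_self _ _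
    rw [this, mul_one]

/-- a length at which all permutations of the right sign are reached -/
theorem exists_len (hm : 2 ≤ m) : ∃ l0 : ℕ, ∀ π : Equiv.Perm (Fin m), Equiv.Perm.sign π = (-1) ^ l0 → 
    ∃ w : Fin l0 → Letter m, perm w = π := by
  classical
  choose l w hw using reach hm
  refine ⟨univ.sup l, fun π hπ => ?_⟩
  have h1 : l π ≤ univ.sup l := Finset.le_sup (Finset.mem_univ π)
  have h2 : Equiv.Perm.sign π = (-1) ^ (l π) := by
    rw [← sign_perm (w π), hw]
  obtain ⟨k, hk⟩ : ∃ k, univ.sup l = l π + 2 * k := by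
    refine ⟨(univ.sup l - l π) / 2, ?_⟩
    have h3 : ((-1 : ℤˣ)) ^ (univ.sup l) = (-1) ^ (l π) := by rw [← hπ, h2]
    have h4 : (Even (univ.sup l) ↔ Even (l π)) := by
      rcases Nat.even_or_odd (univ.sup l) with h | h <;> rcases Nat.even_or_odd (l π) with h' | h'
      · simp [h, h']
      · rw [h.neg_one_pow, h'.neg_one_pow] at h3
        exact absurd h3 (by decide)
      · rw [h.neg_one_pow, h'.neg_one_pow] at h3
        exact absurd h3 (by decide)
      · simp [Nat.not_even_iff_odd.2 h, Nat.not_even_iff_odd.2 h']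
    rw [Nat.even_iff, Nat.even_iff] at h4
    omega
  rw [hk]
  exact pad hm ⟨w π, hw π⟩ k

/-- the closure of the braid word is a knot: its permutation has a single cycle -/
def IsKnot {n : ℕ} (w : Fin n → Letter m) : Prop := ∀ i j : Fin m, (perm w).SameCycle i j

theorem isKnot_rotate (hm : 2 ≤ m) (i j : Fin m) : (finRotate m).SameCycle i j := by
  obtain ⟨k, rfl⟩ : ∃ k, m = k + 2 := ⟨m - 2, by omega⟩
  have h1 := isCycle_finRotate (n := k)
  have h2 : ∀ x, finRotate (k + 2) x ≠ x := by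
    intro x
    have h3 : x ∈ (finRotate (k+2)).support := by rw [support_finRotate]; exact Finset.mem_univ x
    exact Equiv.Perm.mem_support.1 h3
  exact h1.sameCycle (h2 i) (h2 j)

open Classical in
theorem many_knots (hm : 2 ≤ m) : ∃ l0 : ℕ, ∀ n, l0 ≤ n → n % 2 = (m - 1) % 2 → 
    (2 * (m - 1)) ^ n ≤ (2 * (m - 1)) ^ l0 * (univ.filter (fun w : Fin n → Letter m => IsKnot w)).card := by
  obtain ⟨l0, hl0⟩ := exists_len hm
  refine ⟨l0, fun n hn hpar => ?_⟩
  obtain ⟨k, rfl⟩ : ∃ k, n = k + l0 := ⟨n - l0, by omega⟩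
  have h1 : ∀ w : Fin k → Letter m, ∃ s : Fin l0 → Letter m, perm s = (perm w)⁻¹ * finRotate m := by
    intro w
    apply hl0
    rw [map_mul, map_inv, sign_perm]
    obtain ⟨t, rfl⟩ : ∃ t, m = t + 1 := ⟨m - 1, by omega⟩
    rw [sign_finRotate]
    have h2 : (k + l0) % 2 = t % 2 := by simpa using hpar
    rw [Int.units_inv_eq_self, Nat.add_sub_cancel, ← pow_add]
    have h3 : ∃ e, k + t + 0 = l0 + 2 * e ∨ l0 = k + t + 2 * e := by
      rcases le_total l0 (k + t) with h | h
      · exact ⟨(k + t - l0) / 2, Or.inl (by omega)⟩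
      · exact ⟨(l0 - (k + t)) / 2, Or.inr (by omega)⟩
    obtain ⟨e, h3 | h3⟩ := h3
    · rw [add_zero] at h3
      rw [h3, pow_add, pow_mul (-1 : ℤˣ) 2 e]; simp
    · rw [h3, pow_add (-1 : ℤˣ) (k + t) (2 * e), pow_mul (-1 : ℤˣ) 2 e]; simp
  choose s hs using h1
  have h2 : (univ : Finset (Fin k → Letter m)).card ≤ 
      (univ.filter (fun w : Fin (k + l0) → Letter m => IsKnot w)).card := by
    apply Finset.card_le_card_of_injOn (fun w => Fin.append w (s w))
    · intro w _
      rw [Finset.mem_coe, Finset.mem_filter]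
      refine ⟨Finset.mem_univ _, fun i j => ?_⟩
      rw [perm_append, hs, mul_inv_cancel_left]
      exact isKnot_rotate hm i j
    · intro w _ w' _ h
      funext i
      have := congrFun h (Fin.castAdd l0 i)
      simpa [Fin.append_left] using this
  rw [Finset.card_univ, Fintype.card_fun, Fintype.card_fin] at h2
  have h3 : Fintype.card (Letter m) = 2 * (m - 1) := by simp
  rw [h3] at h2
  calc (2 * (m - 1)) ^ (k + l0) = (2 * (m - 1)) ^ l0 * (2 * (m - 1)) ^ k := by rw [pow_add]; ring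
    _ ≤ _ := Nat.mul_le_mul_left _ h2

open Classical in
/-- Almost all words whose closure is a knot do not have a given polynomial. -/
theorem knots (hm : 2 ≤ m) : ∃ (C : ℝ) (l0 : ℕ), 0 < C ∧ ∀ (O : Outer m), (∀ j, O.up j = true) → 
    ∀ p : ℤ[T;T⁻¹], p ≠ 0 → ∀ n, 0 < n → l0 ≤ n → n % 2 = (m - 1) % 2 → 
    ((univ.filter (fun w : Fin n → Letter m => IsKnot w ∧ (diagram O w).fPoly = p)).card : ℝ) ≤ 
      C / Real.sqrt n * (univ.filter (fun w : Fin n → Letter m => IsKnot w)).card := by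
  obtain ⟨l0, hl0⟩ := many_knots hm
  set D : ℕ := 2 * (m - 1) with hD
  set L : ℕ := m * (m - 1) with hL
  have hDpos : 0 < D := by omega
  have hLpos : 0 < L := by
    rw [hL]; exact Nat.mul_pos (by omega) (by omega)
  refine ⟨(m / 2 + 1 : ℕ) * Real.sqrt ((L : ℝ) * (D : ℝ) ^ L / 2) * (D : ℝ) ^ l0, l0, by positivity, 
    fun O hO p hp n hn hln hpar => ?_⟩
  have h1 := main hm O hO p hp n hn
  have h2 := hl0 n hln hpar
  have h3 : ((univ.filter (fun w : Fin n → Letter m => IsKnot w ∧ (diagram O w).fPoly = p)).card : ℝ) ≤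
      ((univ.filter (fun w : Fin n → Letter m => (diagram O w).fPoly = p)).card : ℝ) := by
    have : (univ.filter (fun w : Fin n → Letter m => IsKnot w ∧ (diagram O w).fPoly = p)) ⊆ 
        (univ.filter (fun w : Fin n → Letter m => (diagram O w).fPoly = p)) := by
      intro w hw
      rw [Finset.mem_filter] at hw ⊢
      exact ⟨hw.1, hw.2.2⟩
    exact_mod_cast Finset.card_le_card this
  refine (h3.trans h1).trans ?_
  have h4 : Real.sqrt (((L : ℕ) : ℝ) * (D : ℕ) ^ L / (2 * n)) = Real.sqrt ((L : ℝ) * (D : ℝ) ^ L / 2) / Real.sqrt n := by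
    rw [← Real.sqrt_div (by positivity), div_div]
  rw [← hL, ← hD, h4]
  have h2' : (D : ℝ) ^ n ≤ (D : ℝ) ^ l0 * (univ.filter (fun w : Fin n → Letter m => IsKnot w)).card := by
    exact_mod_cast h2
  calc ((m / 2 + 1 : ℕ) : ℝ) * (Real.sqrt ((L : ℝ) * (D : ℝ) ^ L / 2) / Real.sqrt n) * (D : ℝ) ^ n 
      ≤ ((m / 2 + 1 : ℕ) : ℝ) * (Real.sqrt ((L : ℝ) * (D : ℝ) ^ L / 2) / Real.sqrt n) * 
        ((D : ℝ) ^ l0 * (univ.filter (fun w : Fin n → Letter m => IsKnot w)).card) := by gcongr
    _ = _ := by ring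

end Pool.Agent.W639.RB
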