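import Pool.Agent.W639.RB.Words

set_option autoImplicit false

namespace Pool.Agent.W639.RB

open Finset LaurentPolynomial Pool.Agent.H891R2.Jones

variable {m : ℕ}

/-! ### blocks -/

theorem blk_lt {q L r : ℕ} (j : Fin q) (i : Fin L) : (j : ℕ) * L + i < q * L := by
  have h1 := i.2
  have h2 := j.2
  calc (j : ℕ) * L + i < j * L + L := by omega
    _ = (j + 1) * L := by ring
    _ ≤ q * L := Nat.mul_le_mul_right _ h2

/-- the blocks of a word -/
def blocks {q L r : ℕ} (w : Fin (q * L + r) → Letter m) : Fin q → (Fin L → Letter m) := 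
  fun j i => w (Fin.castLE (Nat.le_add_right _ _) ⟨j * L + i, blk_lt (r := r) j i⟩)

/-- the rest of the word -/
def rest {q L r : ℕ} (w : Fin (q * L + r) → Letter m) : Fin r → Letter m := 
  fun i => w (Fin.natAdd (q * L) i)

/-- the word with given blocks and rest -/
def asm {q L r : ℕ} (b : Fin q → (Fin L → Letter m)) (s : Fin r → Letter m) : List (Bool × ℕ) :=
  (List.ofFn (fun j => toL (b j))).flatten ++ toL s

theorem toL_asm {q L r : ℕ} (w : Fin (q * L + r) → Letter m) : toL w = asm (blocks w) (rest w) := by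
  unfold toL asm
  rw [List.ofFn_add]
  congr 1
  rw [List.ofFn_mul]
  rfl

theorem blocks_inj {q L r : ℕ} (w w' : Fin (q * L + r) → Letter m) (h1 : blocks w = blocks w')
    (h2 : rest w = rest w') : w = w' := by
  funext i
  by_cases hi : (i : ℕ) < q * L
  · have hL : 0 < L := by
      rcases Nat.eq_zero_or_pos L with h | h
      · subst h; simp at hi
      · exact h
    have hq : (i : ℕ) / L < q := by
      rw [Nat.div_lt_iff_lt_mul hL]; exact hi
    have h3 := congrFun (congrFun h1 ⟨i / L, hq⟩) ⟨i % L, Nat.mod_lt _ hL⟩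
    unfold blocks at h3
    have h4 : (Fin.castLE (Nat.le_add_right (q * L) r) ⟨(⟨(i:ℕ) / L, hq⟩ : Fin q) * L + 
        (⟨(i:ℕ) % L, Nat.mod_lt _ hL⟩ : Fin L), blk_lt (r := r) _ _⟩ : Fin (q * L + r)) = i := by
      apply Fin.ext
      simp only [Fin.val_castLE]
      exact Nat.div_add_mod' _ _
    rw [h4] at h3
    exact h3
  · have h3 := congrFun h2 ⟨i - q * L, by omega⟩
    unfold rest at h3
    have h4 : (Fin.natAdd (q * L) ⟨(i:ℕ) - q * L, by omega⟩ : Fin (q * L + r)) = i := by
      apply Fin.ext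
      simp only [Fin.val_natAdd]
      omega
    rw [h4] at h3
    exact h3

theorem asm_mem {q L r : ℕ} (b : Fin q → (Fin L → Letter m)) (s : Fin r → Letter m) : 
    ∀ x ∈ asm b s, x.2 + 1 < m := by
  intro x hx
  unfold asm at hx
  rw [List.mem_append] at hx
  rcases hx with hx | hx
  · rw [List.mem_flatten] at hx
    obtain ⟨l, hl, hx⟩ := hx
    rw [List.mem_ofFn] at hl
    obtain ⟨j, rfl⟩ := hl
    exact toL_mem _ x hx
  · exact toL_mem _ x hx

theorem exists_blk {L : ℕ} (l : List (Bool × ℕ)) (hl : l.length = L) (h : ∀ x ∈ l, x.2 + 1 < m) : 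
    ∃ b : Fin L → Letter m, toL b = l := by
  subst hl
  refine ⟨fun i => ((l[i]).1, ⟨(l[i]).2, by have := h _ (List.getElem_mem i.2); simp only [Fin.getElem_fin]; omega⟩), ?_⟩
  unfold toL
  simp only [Fin.getElem_fin]
  exact List.ofFn_getElem

/-! ### the operators -/

theorem cnt_succ {β : Type*} [DecidableEq β] {q : ℕ} (u : β) (b : Fin (q+1) → β) : 
    cnt u b = (if b 0 = u then 1 else 0) + cnt u (fun j => b j.succ) := by
  unfold cnt
  rw [Finset.card_filter, Finset.card_filter, Fin.sum_univ_succ]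

theorem prod_patt {β R : Type*} [DecidableEq β] [Monoid R] (u v : β) (ρ : β → R) (F : R)
    (hu : ρ u = F) (hv : ρ v = 1) (hF : ∀ b, Commute (ρ b) F) (huv : u ≠ v) : ∀ (q : ℕ) (b : Fin q → β),
    (List.ofFn (fun j => ρ (b j))).prod = F ^ (cnt u b) * 
      (List.ofFn (fun j => (patt u v b j).elim 1 ρ)).prod := by
  intro q
  induction q with
  | zero => intro b; simp [cnt]
  | succ q ih =>
    intro b
    have h1 := ih (fun j => b j.succ)
    rw [List.ofFn_succ, List.prod_cons, List.ofFn_succ, List.prod_cons, h1, cnt_succ]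
    have h2 : (List.ofFn fun j : Fin q => (patt u v (fun j => b j.succ) j).elim 1 ρ) = 
        (List.ofFn fun j : Fin q => (patt u v b j.succ).elim 1 ρ) := rfl
    rw [h2]
    set X := (List.ofFn fun j : Fin q => (patt u v b j.succ).elim 1 ρ).prod with hX
    by_cases h3 : b 0 = u
    · have h4 : patt u v b 0 = none := by simp [patt, h3]
      rw [h4, h3, hu, if_pos rfl, pow_add, pow_one]
      simp only [Option.elim, one_mul, mul_assoc]
    · by_cases h5 : b 0 = v
      · have h4 : patt u v b 0 = none := by simp [patt, h5]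
        rw [h4, h5, hv, if_neg (Ne.symm huv), zero_add]
        simp only [Option.elim, one_mul]
      · have h4 : patt u v b 0 = some (b 0) := by simp [patt, h3, h5]
        rw [h4, if_neg h3, zero_add]
        simp only [Option.elim]
        rw [← mul_assoc, ← mul_assoc, ((hF (b 0)).pow_right _).eq]

theorem sum_patt {β : Type*} [DecidableEq β] (u v : β) (ρ : β → ℤ) (F : ℤ)
    (hu : ρ u = F) (hv : ρ v = 0) (huv : u ≠ v) : ∀ (q : ℕ) (b : Fin q → β),
    (List.ofFn (fun j => ρ (b j))).sum = (cnt u b) * F + 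
      (List.ofFn (fun j => (patt u v b j).elim 0 ρ)).sum := by
  intro q
  induction q with
  | zero => intro b; simp [cnt]
  | succ q ih =>
    intro b
    have h1 := ih (fun j => b j.succ)
    rw [List.ofFn_succ, List.sum_cons, List.ofFn_succ, List.sum_cons, h1, cnt_succ]
    have h2 : (List.ofFn fun j : Fin q => (patt u v (fun j => b j.succ) j).elim 0 ρ) = 
        (List.ofFn fun j : Fin q => (patt u v b j.succ).elim 0 ρ) := rfl
    rw [h2]
    set X := (List.ofFn fun j : Fin q => (patt u v b j.succ).elim 0 ρ).sum with hX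
    by_cases h3 : b 0 = u
    · have h4 : patt u v b 0 = none := by simp [patt, h3]
      rw [h4, h3, hu, if_pos rfl]
      simp only [Option.elim]
      push_cast
      ring
    · by_cases h5 : b 0 = v
      · have h4 : patt u v b 0 = none := by simp [patt, h5]
        rw [h4, h5, hv, if_neg (Ne.symm huv)]
        simp only [Option.elim]
        push_cast
        ring
      · have h4 : patt u v b 0 = some (b 0) := by simp [patt, h3, h5]
        rw [h4, if_neg h3]
        simp only [Option.elim]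
        push_cast
        ring

section formula

variable {q r : ℕ} (hm : 2 ≤ m) (u v : Fin (m * (m - 1)) → Letter m) 
  (hu : toL u = uW m) (hv : toL v = vW (m * (m - 1) / 2)) (huv : u ≠ v)
  (O : Outer m) (hO : ∀ j, O.up j = true) (s : Fin r → Letter m)

include hm hu hv huv hO

theorem class_formula (N : ℕ) (hN : 3 ≤ N) (b0 : Fin q → (Fin (m * (m - 1)) → Letter m)) :
    ∃ C : ℕ → ℂ, ∀ b : Fin q → (Fin (m * (m - 1)) → Letter m), patt u v b = patt u v b0 → 
      ev N hN (draw O (asm b s)).close.fPoly = 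
      ∑ j ∈ Finset.range (m / 2 + 1), C j * (((xr N) ^ (cnt u b : ℤ) : ℝ) : ℂ) ^ (kap m m j) := by
  have hA := Ar_ne N hN
  have hd := Ar_d N hN
  have hx := xr_gt N hN
  have hNC : (N : ℂ) ≠ 0 := by
    rw [Nat.cast_ne_zero]; omega
  set V := (Fin m → Fin N) → ((Fin m → Fin N) → ℂ) with hV
  let g0 : V := fun x y => ind (x = y)
  let F : (Module.End ℂ V)ˣ := twistUnit hA m N hd
  -- the operator of the pattern
  let G : Module.End ℂ V := (List.ofFn (fun j => (patt u v b0 j).elim 1 
    (fun c => rho (Ar N) m N (toL c)))).prod * rho (Ar N) m N (toL s)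
  let w0 : ℤ := O.close.writhe + (List.ofFn (fun j => (patt u v b0 j).elim 0 
    (fun c => expo (toL c)))).sum + expo (toL s)
  have hrho : ∀ b : Fin q → (Fin (m * (m - 1)) → Letter m), patt u v b = patt u v b0 → 
      rho (Ar N) m N (asm b s) = ((F ^ (cnt u b : ℤ) : (Module.End ℂ V)ˣ) : Module.End ℂ V) * G := by
    intro b hb
    unfold asm
    rw [rho_append, rho_flatten, List.map_ofFn]
    have h1 := prod_patt u v (fun c => rho (Ar N) m N (toL c)) (F : Module.End ℂ V)
      (by rw [hu, rho_uW]; rfl)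
      (by rw [hv]; exact rho_vW hA hd hm _)
      (fun c => comm_rho hA hd (toL c) (toL_mem c)) huv q b
    rw [hb] at h1
    have h2 : (rho (Ar N) m N ∘ fun j => toL (b j)) = fun j => rho (Ar N) m N (toL (b j)) := rfl
    rw [h2, h1, mul_assoc]
    rw [zpow_natCast, Units.val_pow_eq_pow_val]
  have hwr : ∀ b : Fin q → (Fin (m * (m - 1)) → Letter m), patt u v b = patt u v b0 → 
      (draw O (asm b s)).close.writhe = w0 + (cnt u b : ℤ) * ((m : ℤ) ^ 2 - m) := by
    intro b hb
    rw [close_writhe, (draw_up (asm b s) O (asm_mem b s) hO).2]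
    unfold asm
    rw [expo_append, expo_flatten, List.map_ofFn]
    have h1 := sum_patt u v (fun c => expo (toL c)) ((m * (m - 1) : ℕ) : ℤ)
      (by rw [hu, expo_uW]) (by rw [hv]; exact expo_vW _) huv q b
    rw [hb] at h1
    have h2 : (expo ∘ fun j => toL (b j)) = fun j => expo (toL (b j)) := rfl
    rw [h2, h1]
    have h3 : ((m * (m - 1) : ℕ) : ℤ) = (m : ℤ) ^ 2 - m := by
      rw [Nat.cast_mul, Nat.cast_sub (by omega)]
      push_cast
      ring
    rw [h3]
    simp only [w0, close_writhe]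
    ring
  let L : Module.End ℂ V →ₗ[ℂ] ℂ := 
    { toFun := fun S => Zg (Ar N) N O ((S * G) g0)
      map_add' := by
        intro S S'
        rw [add_mul]
        unfold Zg
        rw [← Finset.sum_add_distrib]
        refine Finset.sum_congr rfl fun u _ => ?_
        exact mul_add (WW (Ar N) O.arcs O.crossings u) ((S * G) g0 (u ∘ O.lower) (u ∘ O.upper))
          ((S' * G) g0 (u ∘ O.lower) (u ∘ O.upper))
      map_smul' := by
        intro r S
        rw [smul_mul_assoc]
        unfold Zg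
        simp only [RingHom.id_apply, smul_eq_mul]
        rw [Finset.mul_sum]
        refine Finset.sum_congr rfl fun u _ => ?_
        exact mul_left_comm (WW (Ar N) O.arcs O.crossings u) r ((S * G) g0 (u ∘ O.lower) (u ∘ O.upper)) }
  have hpoly : Polynomial.aeval ((F : (Module.End ℂ V)ˣ) : Module.End ℂ V)
      (∏ j ∈ Finset.range (m / 2 + 1), (Polynomial.X - Polynomial.C (mu (Ar N) m (m - 2 * j)))) = 0 :=
    FF_poly hA hd (isTL_ee m N) m 0 (by omega)
  obtain ⟨c, hc⟩ := unit_zpow_eq (Finset.range (m / 2 + 1)) ⟨0, by simp⟩ 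
    (fun j => mu (Ar N) m (m - 2 * j)) (by
      intro i hi j hj hij
      have hi' := Finset.mem_range.1 (Finset.mem_coe.1 hi)
      have hj' := Finset.mem_range.1 (Finset.mem_coe.1 hj)
      have h1 := Ar_zpow_inj N hN hij
      have h3 : (((m - 2 * i : ℕ) : ℤ) + 1)^2 = (((m - 2 * j : ℕ) : ℤ) + 1)^2 := by linarith
      have h4 : ((m - 2 * i : ℕ) : ℤ) + 1 = ((m - 2 * j : ℕ) : ℤ) + 1 := by
        rw [sq_eq_sq₀ (by positivity) (by positivity)] at h3
        exact h3
      omega) (fun j _ => zpow_ne_zero _ hA) F hpoly L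
  have hpar : (((m : ℤ)) - m) % 2 = 0 := by simp
  refine ⟨fun j => (ev N hN (if Even w0 then 1 else -1)) * Ar N ^ (-3 * w0) * c j / N, fun b hb => ?_⟩
  set a : ℤ := (cnt u b : ℤ) with ha
  have h1 : (N : ℂ) * ev N hN (draw O (asm b s)).close.bracket = 
      ∑ j ∈ Finset.range (m / 2 + 1), c j * mu (Ar N) m (m - 2 * j) ^ a := by
    have : Nonempty (draw O (asm b s)).P := ⟨(draw O (asm b s)).lower ⟨0, by omega⟩⟩
    rw [ev_bracket N hN (draw O (asm b s)).close, ← hc a, Z_close, Zg_draw _ _ (asm_mem b s), hrho b hb]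
    rfl
  have h2 : ev N hN (draw O (asm b s)).close.bracket = 
      (∑ j ∈ Finset.range (m / 2 + 1), c j * mu (Ar N) m (m - 2 * j) ^ a) / N := by
    rw [← h1]; field_simp
  have hev : Even (a * ((m : ℤ) ^ 2 - m)) := by
    apply Even.mul_left
    have : ((m : ℤ))^2 - m = (m : ℤ) * ((m : ℤ) - 1) := by ring
    rw [this]
    exact Int.even_mul_pred_self (m : ℤ)
  unfold Diagram.fPoly
  rw [map_mul, map_mul, h2, hwr b hb, ev_T]
  have h3 : (Even (w0 + a * ((m : ℤ) ^ 2 - m))) ↔ Even w0 := by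
    rw [Int.even_add]
    simp [hev]
  have h3' : (if Even (w0 + a * ((m : ℤ) ^ 2 - m)) then (1 : ℤ[T;T⁻¹]) else -1) = 
      if Even w0 then 1 else -1 := by
    simp only [h3]
  rw [h3', Finset.sum_div, Finset.mul_sum]
  refine Finset.sum_congr rfl fun j hj => ?_
  have hj' := Finset.mem_range.1 hj
  obtain ⟨t, ht, ht'⟩ := kap_spec hpar hj'
  have h4 : Ar N ^ (-3 * (w0 + a * ((m : ℤ) ^ 2 - m))) * mu (Ar N) m (m - 2 * j) ^ a = 
      Ar N ^ (-3 * w0) * (((xr N) ^ a : ℝ) : ℂ) ^ (kap m m j) := by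
    have e1 : (((xr N) ^ a : ℝ) : ℂ) ^ (kap m m j) = Ar N ^ (4 * t * a) := by
      rw [ht', Complex.ofReal_zpow, ← zpow_mul, zpow_mul (Ar N), Ar_zpow_four N hN, ← zpow_mul]
      congr 1
      ring
    rw [e1, mu, ← zpow_mul, ← zpow_add₀ hA, ← zpow_add₀ hA]
    congr 1
    linear_combination a * ht
  calc _ = ev N hN (if Even w0 then 1 else -1) * 
        (Ar N ^ (-3 * (w0 + a * ((m : ℤ) ^ 2 - m))) * 
          mu (Ar N) m (m - 2 * j) ^ a) * c j / N := by ring
    _ = _ := by rw [h4]; ring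

theorem class_count (N : ℕ) (hN : 3 ≤ N) (p : ℤ[T;T⁻¹]) (hp : ev N hN p ≠ 0)
    (S : Finset (Fin q → (Fin (m * (m - 1)) → Letter m)))
    (hS : ∀ b ∈ S, (draw O (asm b s)).close.fPoly = p)
    (b0 : Fin q → (Fin (m * (m - 1)) → Letter m)) :
    ((S.filter (fun b => patt u v b = patt u v b0)).image (cnt u)).card ≤ m / 2 + 1 := by
  classical
  by_contra hcon
  set T := (S.filter (fun b => patt u v b = patt u v b0)).image (cnt u) with hT
  obtain ⟨C, hC⟩ := class_formula (q := q) hm u v hu hv huv O hO s N hN b0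
  have hx := xr_gt N hN
  have hpar : (((m : ℤ)) - m) % 2 = 0 := by simp
  have key := exp_zero_complex (insert none ((Finset.range (m / 2 + 1)).map Function.Embedding.some))
    (fun i : Option ℕ => i.elim 0 (kap m m)) (fun i : Option ℕ => i.elim (-(ev N hN p)) C)
    (T.image (fun a : ℕ => (xr N) ^ (a : ℤ))) ?_ ?_ ?_ ?_ none (Finset.mem_insert_self _ _)
  · simp at key
    exact hp key
  · -- injectivity
    have hne : ∀ j ∈ Finset.range (m / 2 + 1), kap m m j ≠ 0 := by
      intro j hj h0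
      obtain ⟨t, ht, ht'⟩ := kap_spec hpar (Finset.mem_range.1 hj)
      have ht0 : t = 0 := by omega
      subst ht0
      have h5 : (((m - 2 * j : ℕ) : ℤ)) ≤ m := by
        exact_mod_cast Nat.sub_le _ _
      have h6 : (0 : ℤ) ≤ ((m - 2 * j : ℕ) : ℤ) := by positivity
      have h7 : (2 : ℤ) ≤ m := by exact_mod_cast hm
      nlinarith
    intro a ha b hb hab
    simp only [Finset.coe_insert, Finset.coe_map, Set.mem_insert_iff, Set.mem_image,
      Finset.mem_coe, Function.Embedding.some_apply] at ha hb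
    rcases ha with rfl | ⟨i, hi, rfl⟩ <;> rcases hb with rfl | ⟨j, hj, rfl⟩
    · rfl
    · exact absurd hab.symm (hne j hj)
    · exact absurd hab (hne i hi)
    · rw [kap_inj hpar (Finset.mem_coe.2 hi) (Finset.mem_coe.2 hj) hab]
  · intro y hy
    rw [Finset.mem_image] at hy
    obtain ⟨a, _, rfl⟩ := hy
    exact zpow_pos (by linarith) a
  · have hinj : Function.Injective (fun a : ℕ => (xr N) ^ (a : ℤ)) := fun a b h => 
      Nat.cast_injective (zpow_right_injective₀ (by linarith) (by linarith) h)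
    rw [Finset.card_insert_of_notMem (by simp), Finset.card_map, Finset.card_range,
      Finset.card_image_of_injective _ hinj]
    omega
  · intro y hy
    rw [Finset.mem_image] at hy
    obtain ⟨a, ha, rfl⟩ := hy
    rw [hT, Finset.mem_image] at ha
    obtain ⟨b, hb, rfl⟩ := ha
    rw [Finset.mem_filter] at hb
    have h1 := hC b hb.2
    rw [hS b hb.1] at h1
    rw [Finset.sum_insert (by simp), Finset.sum_map]
    simp only [Option.elim, Function.Embedding.some_apply, zpow_zero, mul_one]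
    rw [← h1]
    ring

end formula

theorem exists_ev_ne (p : ℤ[T;T⁻¹]) (hp : p ≠ 0) : ∃ N, ∃ hN : 3 ≤ N, ev N hN p ≠ 0 := by
  by_contra hcon
  push Not at hcon
  apply hp
  have h1 := eq_one_of_ev (p + 1) (fun N hN => by rw [map_add, map_one, hcon N hN, zero_add])
  exact add_eq_right.1 h1

open Classical in
/-- the main estimate -/
theorem main (hm : 2 ≤ m) (O : Outer m) (hO : ∀ j, O.up j = true) (p : ℤ[T;T⁻¹]) (hp : p ≠ 0) 
    (n : ℕ) (hn : 0 < n) :
    ((univ.filter (fun w : Fin n → Letter m => (diagram O w).fPoly = p)).card : ℝ) ≤ 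
      (m / 2 + 1 : ℕ) * Real.sqrt ((m * (m - 1) : ℕ) * (2 * (m - 1) : ℕ) ^ (m * (m - 1)) / (2 * n)) * 
        (2 * (m - 1) : ℕ) ^ n := by
  obtain ⟨N, hN, hpN⟩ := exists_ev_ne p hp
  set L := m * (m - 1) with hL
  have hL2 : 2 ≤ L := by
    rw [hL]
    calc 2 = 2 * 1 := by norm_num
      _ ≤ m * (m - 1) := Nat.mul_le_mul hm (by omega)
  have hLe : 2 * (L / 2) = L := by
    apply Nat.mul_div_cancel'
    rw [hL]
    exact (Nat.even_mul_pred_self m).two_dvd
  obtain ⟨u, hu⟩ := exists_blk (m := m) (L := L) (uW m) (by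
    unfold uW; rw [List.length_map, twistWord_length]) uW_mem
  obtain ⟨v, hv⟩ := exists_blk (m := m) (L := L) (vW (L / 2)) (by rw [vW_length, hLe]) 
    (vW_mem hm _)
  have huv : u ≠ v := by
    rintro rfl
    rw [hu] at hv
    have h1 : (false, 0) ∈ vW (L / 2) := by
      obtain ⟨k, hk⟩ : ∃ k, L / 2 = k + 1 := ⟨L / 2 - 1, by omega⟩
      rw [hk, vW]
      simp
    rw [← hv] at h1
    unfold uW at h1
    rw [List.mem_map] at h1
    obtain ⟨i, _, hi⟩ := h1
    simp at hi
  -- decompose n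
  obtain ⟨q, r, hr, rfl⟩ : ∃ q r, r < L ∧ n = q * L + r := 
    ⟨n / L, n % L, Nat.mod_lt _ (by omega), (Nat.div_add_mod' n L).symm⟩
  set D : ℕ := 2 * (m - 1) with hD
  have hcardL : Fintype.card (Letter m) = D := by
    simp [hD]
  have hcardB : Fintype.card (Fin L → Letter m) = D ^ L := by
    rw [Fintype.card_fun, hcardL, Fintype.card_fin]
  -- the sets for a given rest
  let Ss : (Fin r → Letter m) → Finset (Fin q → (Fin L → Letter m)) := fun s =>
    univ.filter (fun b => (draw O (asm b s)).close.fPoly = p)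
  have h1 : (univ.filter (fun w : Fin (q * L + r) → Letter m => (diagram O w).fPoly = p)).card ≤ 
      ∑ s : Fin r → Letter m, (Ss s).card := by
    rw [← Finset.card_sigma]
    apply Finset.card_le_card_of_injOn (fun w => (⟨rest w, blocks w⟩ : 
      (_ : Fin r → Letter m) × (Fin q → (Fin L → Letter m))))
    · intro w hw
      have hw' : (diagram O w).fPoly = p := (Finset.mem_filter.1 (Finset.mem_coe.1 hw)).2
      rw [Finset.mem_coe, Finset.mem_sigma]
      refine ⟨Finset.mem_univ _, ?_⟩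
      simp only [Ss, Finset.mem_filter, Finset.mem_univ, true_and]
      rw [← toL_asm w]
      exact hw'
    · intro w _ w' _ h
      simp only [Sigma.mk.injEq, heq_eq_eq] at h
      exact blocks_inj w w' h.2 h.1
  have h2 : ∀ s : Fin r → Letter m, ((Ss s).card : ℝ) ≤ 
      (m / 2 + 1 : ℕ) * (((D ^ L : ℕ) : ℝ) ^ q * Real.sqrt (((D ^ L : ℕ) : ℝ) / (2 * (q + 1)))) := by
    intro s
    have h3 := anti (q := q) u v huv (Ss s) (m / 2 + 1) (fun b0 => 
      class_count hm u v hu hv huv O hO s N hN p hpN (Ss s) 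
        (fun b hb => (Finset.mem_filter.1 hb).2) b0)
    rw [hcardB] at h3
    exact h3
  have h4 : ((univ.filter (fun w : Fin (q * L + r) → Letter m => (diagram O w).fPoly = p)).card : ℝ) ≤ 
      (D : ℝ) ^ r * ((m / 2 + 1 : ℕ) * (((D ^ L : ℕ) : ℝ) ^ q * 
        Real.sqrt (((D ^ L : ℕ) : ℝ) / (2 * (q + 1))))) := by
    calc ((univ.filter (fun w : Fin (q * L + r) → Letter m => (diagram O w).fPoly = p)).card : ℝ) 
        ≤ ((∑ s : Fin r → Letter m, (Ss s).card : ℕ) : ℝ) := by exact_mod_cast h1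
      _ = ∑ s : Fin r → Letter m, ((Ss s).card : ℝ) := by push_cast; rfl
      _ ≤ ∑ s : Fin r → Letter m, ((m / 2 + 1 : ℕ) * (((D ^ L : ℕ) : ℝ) ^ q * 
        Real.sqrt (((D ^ L : ℕ) : ℝ) / (2 * (q + 1))))) := Finset.sum_le_sum (fun s _ => h2 s)
      _ = _ := by
        rw [Finset.sum_const, Finset.card_univ, Fintype.card_fun, hcardL, Fintype.card_fin,
          nsmul_eq_mul]
        push_cast
        rfl
  refine h4.trans ?_
  have h5 : Real.sqrt (((D ^ L : ℕ) : ℝ) / (2 * (q + 1))) ≤ 
      Real.sqrt ((L : ℝ) * (D : ℝ) ^ L / (2 * ((q * L + r : ℕ) : ℝ))) := by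
    apply Real.sqrt_le_sqrt
    have hn' : (0 : ℝ) < ((q * L + r : ℕ) : ℝ) := by exact_mod_cast hn
    rw [div_le_div_iff₀ (by positivity) (by positivity)]
    have h6 : ((q * L + r : ℕ) : ℝ) ≤ L * (q + 1) := by
      have : q * L + r ≤ L * (q + 1) := by nlinarith
      exact_mod_cast this
    push_cast at h6 ⊢
    have h7 : (0 : ℝ) ≤ (D : ℝ) ^ L := by positivity
    nlinarith
  calc (D : ℝ) ^ r * ((m / 2 + 1 : ℕ) * (((D ^ L : ℕ) : ℝ) ^ q * 
        Real.sqrt (((D ^ L : ℕ) : ℝ) / (2 * (q + 1))))) 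
      ≤ (D : ℝ) ^ r * ((m / 2 + 1 : ℕ) * (((D ^ L : ℕ) : ℝ) ^ q * 
        Real.sqrt ((L : ℝ) * (D : ℝ) ^ L / (2 * ((q * L + r : ℕ) : ℝ))))) := by gcongr
    _ = _ := by
      push_cast
      rw [pow_add, mul_comm q L, pow_mul]
      ring

end Pool.Agent.W639.RB
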