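import Pool.Agent.W639.RB.Defs
import Pool.Agent.W639.RB.Comb
import Pool.Agent.H891R2.Jones.Final
import Pool.Agent.H891R2.Jones.Closed

set_option autoImplicit false

namespace Pool.Agent.W639.RB

open Finset LaurentPolynomial Pool.Agent.H891R2.Jones

variable {m : ℕ}

/-- the operator of a letter -/
noncomputable def lt (A : ℂ) (m N : ℕ) (x : Bool × ℕ) : 
    Module.End ℂ ((Fin m → Fin N) → ((Fin m → Fin N) → ℂ)) :=
  if x.1 then sg A (ee m N ((Fin m → Fin N) → ℂ)) x.2 else sg A⁻¹ (ee m N ((Fin m → Fin N) → ℂ)) x.2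

/-- the operator of a word -/
noncomputable def rho (A : ℂ) (m N : ℕ) (w : List (Bool × ℕ)) : 
    Module.End ℂ ((Fin m → Fin N) → ((Fin m → Fin N) → ℂ)) := (w.map (lt A m N)).prod

theorem rho_append (A : ℂ) (m N : ℕ) (w w' : List (Bool × ℕ)) : 
    rho A m N (w ++ w') = rho A m N w * rho A m N w' := by
  simp [rho]

theorem rho_flatten (A : ℂ) (m N : ℕ) (l : List (List (Bool × ℕ))) : 
    rho A m N l.flatten = (l.map (rho A m N)).prod := by
  induction l with
  | nil => rfl
  | cons w l ih => rw [List.flatten_cons, rho_append, ih, List.map_cons, List.prod_cons]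

theorem Zg_draw {A : ℂ} {N : ℕ} (w : List (Bool × ℕ)) : ∀ (O : Outer m), (∀ x ∈ w, x.2 + 1 < m) → 
    ∀ (g : (Fin m → Fin N) → ((Fin m → Fin N) → ℂ)),
    Zg A N (draw O w) g = Zg A N O (rho A m N w g) := by
  induction w with
  | nil => intro O _ g; rfl
  | cons x w ih =>
    intro O hw g
    have h1 := ih (O.push x.1 x.2) (fun j hj => hw j (List.mem_cons_of_mem _ hj)) g
    have h2 : draw O (x :: w) = draw (O.push x.1 x.2) w := rfl
    have h3 := hw x List.mem_cons_self
    rw [h2, h1]
    obtain ⟨p, i⟩ := x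
    cases p
    · rw [Zg_push_false O i h3]
      simp [rho, lt]
    · rw [Zg_push_true O i h3]
      simp [rho, lt]

/-- the exponent sum -/
def expo (w : List (Bool × ℕ)) : ℤ := (w.map (fun x => if x.1 then (1:ℤ) else -1)).sum

theorem expo_append (w w' : List (Bool × ℕ)) : expo (w ++ w') = expo w + expo w' := by
  simp [expo]

theorem expo_flatten (l : List (List (Bool × ℕ))) : expo l.flatten = (l.map expo).sum := by
  induction l with
  | nil => rfl
  | cons w l ih => rw [List.flatten_cons, expo_append, ih, List.map_cons, List.sum_cons]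

theorem pat_up {O : Outer m} (hO : ∀ j, O.up j = true) (i : ℕ) (hi : i < m) : pat O.up i = 1 := by
  simp [pat, hi, hO]

theorem draw_up (w : List (Bool × ℕ)) : ∀ (O : Outer m), (∀ x ∈ w, x.2 + 1 < m) → 
    (∀ j, O.up j = true) → (∀ j, (draw O w).up j = true) ∧ owr (draw O w) = owr O + expo w := by
  induction w with
  | nil => intro O _ h; exact ⟨h, by simp [draw, expo]⟩
  | cons x w ih =>
    intro O hw hO
    have h3 := hw x List.mem_cons_self
    obtain ⟨h4, h5⟩ := push_writhe O x.1 x.2 h3
    have h6 : ∀ j, (O.push x.1 x.2).up j = true := by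
      intro j
      have h7 := congrFun h5 (j : ℕ)
      have h8 : pat O.up (Equiv.swap x.2 (x.2+1) (j:ℕ)) = 1 := by
        apply pat_up hO
        by_cases h9 : (j : ℕ) = x.2
        · rw [h9, Equiv.swap_apply_left]; exact h3
        · by_cases h10 : (j : ℕ) = x.2 + 1
          · rw [h10, Equiv.swap_apply_right]; omega
          · rw [Equiv.swap_apply_of_ne_of_ne h9 h10]; exact j.2
      rw [Function.comp_apply, h8] at h7
      simp only [pat, Fin.is_lt, dif_pos, Fin.eta] at h7
      by_contra hcon
      simp [hcon] at h7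
    obtain ⟨h1, h2⟩ := ih (O.push x.1 x.2) (fun j hj => hw j (List.mem_cons_of_mem _ hj)) h6
    have h11 : draw O (x :: w) = draw (O.push x.1 x.2) w := rfl
    rw [h11]
    refine ⟨h1, ?_⟩
    rw [h2, h4, pat_up hO _ (by omega), pat_up hO _ h3]
    simp [expo, add_assoc]

theorem good_draw (v : Fin m → Bool) (w : List (Bool × ℕ)) : ∀ (O : Outer m), 
    Good O v → Good (draw O w) v := by
  induction w with
  | nil => intro O h; exact h
  | cons x w ih =>
    intro O h
    exact ih _ (Good_push O v x.1 x.2 h)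

theorem draw_closed (w : List (Bool × ℕ)) (O : Outer m) (hw : ∀ x ∈ w, x.2 + 1 < m)
    (hO : ∀ j, O.up j = true) (h : O.close.IsClosed) : (draw O w).close.IsClosed := by
  rw [closed_iff] at h ⊢
  have h1 : (draw O w).up = O.up := by
    funext j
    rw [hO, (draw_up w O hw hO).1]
  rw [h1]
  exact good_draw _ w O h

theorem toL_mem {n : ℕ} (w : Fin n → Letter m) : ∀ x ∈ toL w, x.2 + 1 < m := by
  intro x hx
  unfold toL at hx
  rw [List.mem_ofFn] at hx
  obtain ⟨i, rfl⟩ := hx
  have := (w i).2.2
  simp only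
  omega

/-- the full twist as a unit -/
theorem comm_lt {A : ℂ} (hA : A ≠ 0) {N : ℕ} (hN : (N : ℂ) = -A^2 - A⁻¹^2) (x : Bool × ℕ) 
    (hx : x.2 + 1 < m) :
    Commute (lt A m N x) ((twistUnit hA m N hN : (Module.End ℂ ((Fin m → Fin N) → ((Fin m → Fin N) → ℂ)))ˣ) :
      Module.End ℂ ((Fin m → Fin N) → ((Fin m → Fin N) → ℂ))) := by
  have h1 : Commute (ee m N ((Fin m → Fin N) → ℂ) x.2) 
      (FF (sg A (ee m N ((Fin m → Fin N) → ℂ))) m 0) :=
    FF_comm_e hA hN (isTL_ee m N) m 0 x.2 (by omega) (by omega) (by omega)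
  have h2 : ∀ B : ℂ, Commute (sg B (ee m N ((Fin m → Fin N) → ℂ)) x.2) 
      (FF (sg A (ee m N ((Fin m → Fin N) → ℂ))) m 0) := by
    intro B
    unfold sg at *
    exact ((Commute.one_left _).smul_left B).add_left (h1.smul_left B⁻¹)
  show Commute (lt A m N x) (FF (sg A (ee m N ((Fin m → Fin N) → ℂ))) m 0)
  unfold lt
  split_ifs
  · exact h2 A
  · exact h2 A⁻¹

theorem comm_rho {A : ℂ} (hA : A ≠ 0) {N : ℕ} (hN : (N : ℂ) = -A^2 - A⁻¹^2) (w : List (Bool × ℕ)) 
    (hw : ∀ x ∈ w, x.2 + 1 < m) :
    Commute (rho A m N w) ((twistUnit hA m N hN : (Module.End ℂ ((Fin m → Fin N) → ((Fin m → Fin N) → ℂ)))ˣ) :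
      Module.End ℂ ((Fin m → Fin N) → ((Fin m → Fin N) → ℂ))) := by
  induction w with
  | nil => exact Commute.one_left _
  | cons x w ih =>
    have h1 := comm_lt hA hN x (hw x List.mem_cons_self)
    have h2 := ih (fun y hy => hw y (List.mem_cons_of_mem _ hy))
    have h3 : rho A m N (x :: w) = lt A m N x * rho A m N w := by simp [rho]
    rw [h3]
    exact h1.mul_left h2

/-! ### the two special words -/

theorem twistWord_length : ∀ n k, (twistWord n k).length = n * (n - 1) := by
  have h1 : ∀ n k, (loopWord n k).length = 2 * (n - 1)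
      := by
    intro n
    induction n using Nat.strong_induction_on with
    | _ n ih =>
      intro k
      rcases n with _ | _ | n
      · rfl
      · rfl
      · rw [loopWord, List.length_append, List.length_append, ih (n+1) (by omega)]
        simp
        omega
  intro n
  induction n with
  | zero => intro k; rfl
  | succ n ih =>
    intro k
    rw [twistWord, List.length_append, ih, h1]
    rcases n with _ | n
    · rfl
    · simp only [Nat.add_sub_cancel]
      ring

/-- the full twist -/
def uW (m : ℕ) : List (Bool × ℕ) := (twistWord m 0).map (fun i => (true, i))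

/-- a word of the same length for the trivial braid -/
def vW : ℕ → List (Bool × ℕ)
  | 0 => []
  | (n+1) => (true, 0) :: (false, 0) :: vW n

theorem uW_mem (x : Bool × ℕ) (hx : x ∈ uW m) : x.2 + 1 < m := by
  unfold uW at hx
  rw [List.mem_map] at hx
  obtain ⟨i, hi, rfl⟩ := hx
  have := twistWord_mem m 0 i hi
  simp only
  omega

theorem vW_mem (hm : 2 ≤ m) (n : ℕ) (x : Bool × ℕ) (hx : x ∈ vW n) : x.2 + 1 < m := by
  induction n with
  | zero => simp [vW] at hx
  | succ n ih =>
    rw [vW] at hx
    rcases List.mem_cons.1 hx with rfl | hx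
    · simp only; omega
    · rcases List.mem_cons.1 hx with rfl | hx
      · simp only; omega
      · exact ih hx

theorem vW_length (n : ℕ) : (vW n).length = 2 * n := by
  induction n with
  | zero => rfl
  | succ n ih => rw [vW, List.length_cons, List.length_cons, ih]; ring

theorem expo_uW (m : ℕ) : expo (uW m) = (m * (m - 1) : ℕ) := by
  unfold expo uW
  rw [List.map_map]
  have : ((fun x : Bool × ℕ => if x.1 then (1:ℤ) else -1) ∘ fun i => (true, i)) = fun _ => 1 := by
    funext i; simp
  rw [this, List.map_const', List.sum_replicate, twistWord_length]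
  simp

theorem expo_vW (n : ℕ) : expo (vW n) = 0 := by
  induction n with
  | zero => rfl
  | succ n ih =>
    unfold expo at ih ⊢
    rw [vW]
    simp [ih]

theorem rho_uW (A : ℂ) (m N : ℕ) : rho A m N (uW m) = FF (sg A (ee m N ((Fin m → Fin N) → ℂ))) m 0 := by
  unfold rho uW
  rw [List.map_map, ← twistWord_prod]
  congr 1

theorem rho_vW {A : ℂ} (hA : A ≠ 0) {N : ℕ} (hN : (N : ℂ) = -A^2 - A⁻¹^2) (hm : 2 ≤ m) (n : ℕ) : 
    rho A m N (vW n) = 1 := by
  induction n with
  | zero => rfl
  | succ n ih =>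
    have h1 : rho A m N (vW (n+1)) = lt A m N (true, 0) * (lt A m N (false, 0) * rho A m N (vW n)) := by
      simp [rho, vW]
    rw [h1, ih, mul_one]
    exact sg_inv hA hN (isTL_ee m N) 0 (by omega)

end Pool.Agent.W639.RB
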